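import Pool.Agent.H7.TRI.Stmts

/-!
# Row EXF of the board `tri`
-/

set_option autoImplicit false

open Finset

namespace Pool.TRI

theorem EXF_thm : EXFStmt := by
  intro V _ _ G d v
  unfold ex et
  rw [sum_sub_distrib, sum_sub_distrib, sum_const, sum_const, nsmul_eq_mul, nsmul_eq_mul]
  ring

end Pool.TRI
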