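import Pool.Agent.H7.TRI.Stmts

/-!
# Row FRE of the board `tri`: vertices outside all rich closed neighbourhoods
-/

set_option autoImplicit false
set_option linter.unusedVariables false

open Finset

namespace Pool.TRI

theorem FRE_thm (hPUN : PUNStmt) (hLKB : LKBStmt) (hETB : ETBStmt) (hEXF : EXFStmt)
    (hRCH : RCHStmt) : FREStmt := by
  intro V _ _ G d m hH y hy
  have h0 : 0 ≤ ex G d y := by
    by_contra h
    exact hy (cn G y) (mem_RC.2 ⟨y, not_le.1 h, rfl⟩) (self_mem_cn y)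
  obtain ⟨U, p, hU, hpay, hp⟩ := hPUN V G d m hH y
  rcases U.eq_empty_or_nonempty with hUe | ⟨w, hw⟩
  · rw [hpay, hUe, sum_empty]
    exact h0
  obtain ⟨C, hC, hyC, hwI, -⟩ := hp w hw
  have hwy : G.Adj y w := mem_nb.1 (hU hw)
  have hwC : w ∈ C := (mem_Iso.1 hwI).1
  obtain ⟨-, -, hSS, -, -, -, -, -⟩ := hRCH V G d m hH C hC
  obtain ⟨z, hz⟩ := Finset.card_pos.1 (lt_of_lt_of_le (by norm_num) hSS)
  obtain ⟨-, hzC⟩ := mem_SS.1 hz
  have hkey : ∀ u ∈ nb G y, 0 < et G d y u := by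
    intro u hu
    by_contra hcon
    have hcn : cn G y = cn G u := (hETB V G d m hH y u (mem_nb.1 hu)).2.2.2 (not_lt.1 hcon)
    by_cases huC : u ∈ C
    · have h1 : u ∈ cn G z := by rw [hzC]; exact huC
      have h2 : z ∈ cn G y := by rw [hcn]; exact mem_cn_comm.1 h1
      have h3 : y ∈ cn G z := mem_cn_comm.1 h2
      rw [hzC] at h3
      exact hyC h3
    · have h1 : w ∈ cn G u := by
        rw [← hcn]
        exact mem_cn.2 (Or.inr hwy)
      have h2 : G.Adj u w := by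
        rcases mem_cn.1 h1 with h | h
        · exact absurd (h ▸ hwC) huC
        · exact h
      have h3 := ((hLKB V G d m hH C hC w hwI).2 y (mem_nb.2 hwy.symm) hyC).1
      have h4 : u ∈ nb G w \ C := mem_sdiff.2 ⟨mem_nb.2 h2.symm, huC⟩
      rw [h3, mem_singleton] at h4
      rw [h4] at hu
      exact self_notMem_nb y hu
  rw [hpay, hEXF V G d y]
  have hdeg : ((nb G y).card : ℤ) ≤ d := by exact_mod_cast hH.deg y
  have hd18 : (18 : ℤ) ≤ d := by exact_mod_cast hH.d18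
  have h5 : 0 ≤ ((d : ℤ) - ((nb G y).card : ℤ)) * ((d : ℤ) - 2) :=
    mul_nonneg (by linarith) (by linarith)
  have h6 : ∑ u ∈ U, (et G d y u - 1) ≤ ∑ u ∈ nb G y, (et G d y u - 1) :=
    sum_le_sum_of_subset_of_nonneg hU (fun u hu _ => by
      have := hkey u hu
      linarith)
  have h7 : ∑ u ∈ U, p u ≤ ∑ u ∈ U, (et G d y u - 1) := by
    refine sum_le_sum (fun u hu => ?_)
    obtain ⟨C', hC', hyC', huI, hpu⟩ := hp u hu
    have huy : G.Adj y u := mem_nb.1 (hU hu)
    have h8 := ((hLKB V G d m hH C' hC' u huI).2 y (mem_nb.2 huy.symm) hyC').2.2.1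
    have h9 := (hETB V G d m hH y u huy).2.2.1
    rw [hpu, h9]
    exact h8
  linarith

end Pool.TRI
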