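import Pool.Agent.H7.TRI.Stmts

/-!
# Row GLO of the board `tri`: the global sum
-/

set_option autoImplicit false
set_option linter.unusedVariables false

open Finset

namespace Pool.TRI

theorem GLO_thm (hGSP : GSPStmt) (hECS : ECSStmt) (hFRE : FREStmt) (hDSJ : DSJStmt)
    (hRCH : RCHStmt) : GLOStmt := by
  classical
  intro V _ _ G d m hH
  set M : ℤ := min 0 (6 * (m : ℤ) * ((d : ℤ) - 1) - (d : ℤ) * ((d : ℤ) + 1)) with hM
  have hM0 : M ≤ 0 := min_le_left _ _
  have hdis : Set.PairwiseDisjoint (↑(RC G d) : Set (Finset V)) (id : Finset V → Finset V) := by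
    intro C hC C' hC' hne
    exact hDSJ V G d m hH C hC C' hC' hne
  set D : Finset V := (RC G d).biUnion id with hD
  have hcard : ((RC G d).card : ℤ) * ((d : ℤ) + 1) ≤ (Fintype.card V : ℤ) := by
    have h1 : D.card = ∑ C ∈ RC G d, C.card := card_biUnion (fun C hC C' hC' hne => hdis hC hC' hne)
    have h2 : ∑ C ∈ RC G d, C.card = (RC G d).card * (d + 1) := by
      rw [sum_congr rfl (fun C hC => (hRCH V G d m hH C hC).1), sum_const, smul_eq_mul]
    have h3 : D.card ≤ Fintype.card V := card_le_univ D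
    rw [h1, h2] at h3
    exact_mod_cast h3
  have hD1 : ∑ C ∈ RC G d, ∑ w ∈ C, (ex G d w - pay G d w) ≤ ∑ v : V, (ex G d v - pay G d v) := by
    have h1 : ∑ v ∈ D, (ex G d v - pay G d v) =
        ∑ C ∈ RC G d, ∑ w ∈ C, (ex G d w - pay G d w) := sum_biUnion hdis
    rw [← h1]
    refine sum_le_sum_of_subset_of_nonneg (subset_univ D) (fun v _ hv => ?_)
    have h2 := hFRE V G d m hH v (fun C hC hvC => hv (mem_biUnion.2 ⟨C, hC, hvC⟩))
    linarith
  have hG := hGSP V G d m hH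
  have hE : ∑ C ∈ RC G d, M ≤ ∑ C ∈ RC G d, (∑ w ∈ C, (ex G d w - pay G d w) +
      ∑ w ∈ Iso G C, lk G d C w) := sum_le_sum (fun C hC => hECS V G d m hH C hC)
  rw [sum_const, nsmul_eq_mul, sum_add_distrib] at hE
  have hS : ∑ v : V, ex G d v = ∑ v : V, (ex G d v - pay G d v) + ∑ v : V, pay G d v := by
    rw [← sum_add_distrib]
    exact sum_congr rfl (fun v _ => by ring)
  have hfin : ((RC G d).card : ℤ) * M ≤ ∑ v : V, ex G d v := by
    rw [hS]
    linarith
  have hd0 : (0 : ℤ) ≤ (d : ℤ) + 1 := by positivity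
  calc (Fintype.card V : ℤ) * M ≤ (((RC G d).card : ℤ) * ((d : ℤ) + 1)) * M :=
        mul_le_mul_of_nonpos_right hcard hM0
    _ = ((d : ℤ) + 1) * (((RC G d).card : ℤ) * M) := by ring
    _ ≤ ((d : ℤ) + 1) * ∑ v : V, ex G d v := mul_le_mul_of_nonneg_left hfin hd0

end Pool.TRI
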